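import Pool.Agent.X99.TQ.D

/-!
# Intersections of two quadrics in `ℙ⁵` over a field of cohomological dimension one

There is a field `k` of characteristic two and of cohomological dimension exactly one and a smooth
complete intersection `X ⊂ ℙ⁵` of two quadrics over `k` with `X(k) = ∅`.

The field is a maximal extension prime to `2` of `κ(c)`, `κ = 𝔽₂(a₀, a₁, a₂, …)`, and `X` is
`f = ∑ aᵢ xᵢ² + c (x₀ x₁ + x₂ x₃ + x₄ x₅) = 0`,
`g = x₀² + (a₂ x₂² + c x₂ x₃ + a₃ x₃² + x₂²) + (c (a₄ x₄² + c x₄ x₅ + a₅ x₅²) + x₄²) = 0`.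
-/

set_option autoImplicit false

open MvPolynomial

namespace Pool.Agent.Results.MP_0f87c6_ag.CharacteristicTwo

/-- `M` is a discrete `G`-module: the stabiliser of every element of `M` is open in `G` -/
def IsDiscreteModule (G M : Type) [Group G] [TopologicalSpace G] [AddCommGroup M]
    [DistribMulAction G M] : Prop :=
  ∀ m : M, IsOpen {g : G | g • m = m}

/-- `f : G^(q+1) → M` is a homogeneous continuous `q`-cochain: it is locally constant and
`G`-equivariant -/
def IsCochain {G M : Type} [Group G] [TopologicalSpace G] [AddCommGroup M]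
    [DistribMulAction G M] (q : ℕ) (f : (Fin (q + 1) → G) → M) : Prop :=
  IsLocallyConstant f ∧ ∀ (g : G) (x : Fin (q + 1) → G), f (fun i => g * x i) = g • f x

/-- the differential `(df)(x₀, …, x_(q+1)) = ∑ⱼ (-1)ʲ f(x₀, …, x̂ⱼ, …, x_(q+1))` -/
def diff {G M : Type} [AddCommGroup M] (q : ℕ) (f : (Fin (q + 1) → G) → M) :
    (Fin (q + 2) → G) → M :=
  fun x => ∑ j : Fin (q + 2), (-1 : ℤ) ^ (j : ℕ) • f (fun i => x (j.succAbove i))

/-- `H^(q+1)(G, M) = 0`: every continuous homogeneous `(q+1)`-cocycle is the differential of a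
continuous homogeneous `q`-cochain -/
def HSuccVanishes (G M : Type) [Group G] [TopologicalSpace G] [AddCommGroup M]
    [DistribMulAction G M] (q : ℕ) : Prop :=
  ∀ f : (Fin (q + 2) → G) → M, IsCochain (q + 1) f → diff (q + 1) f = 0 →
    ∃ g : (Fin (q + 1) → G) → M, IsCochain q g ∧ diff q g = f

/-- the cohomological dimension of `G` is at most `m`: `H^q(G, M) = 0` for all `q > m` and all discrete
torsion `G`-modules `M` -/
def CdLe (G : Type) [Group G] [TopologicalSpace G] (m : ℕ) : Prop :=
  ∀ (M : Type) [AddCommGroup M] [DistribMulAction G M], IsDiscreteModule G M →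
    (∀ m : M, IsOfFinAddOrder m) → ∀ q : ℕ, m ≤ q → HSuccVanishes G M q

/-- the same for the group `Gal(L / K)` with its Krull topology -/
def GalCdLe (K L : Type) [Field K] [Field L] [Algebra K L] (m : ℕ) : Prop := CdLe Gal(L/K) m

/-- the gradient of `f` at the point `x` with coordinates in the extension `L` of `k` -/
noncomputable def gradient {k : Type} (L : Type) [Field k] [Field L] [Algebra k L]
    (f : MvPolynomial (Fin 6) k) (x : Fin 6 → L) : Fin 6 → L :=
  fun i => aeval x (pderiv i f)

/-- the gradients of `f` and `g` are linearly independent at all their common zeros `x ≠ 0` over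
`L` -/
def SmoothOver {k : Type} (L : Type) [Field k] [Field L] [Algebra k L]
    (f g : MvPolynomial (Fin 6) k) : Prop :=
  ∀ x : Fin 6 → L, x ≠ 0 → aeval x f = 0 → aeval x g = 0 →
    LinearIndependent L ![gradient L f x, gradient L g x]

/-- the intersection of `f = 0` and `g = 0` in `ℙ⁵` is a smooth complete intersection of two quadrics:
`f` and `g` are quadratic forms, and their gradients are linearly independent at every geometric
common zero -/
def IsSmoothIntersection {k : Type} [Field k] (f g : MvPolynomial (Fin 6) k) : Prop :=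
  f.IsHomogeneous 2 ∧ g.IsHomogeneous 2 ∧ SmoothOver (AlgebraicClosure k) f g

/-- the intersection of `f = 0` and `g = 0` in `ℙ⁵` has a rational point -/
def HasPoint {k : Type} [Field k] (f g : MvPolynomial (Fin 6) k) : Prop :=
  ∃ x : Fin 6 → k, x ≠ 0 ∧ eval x f = 0 ∧ eval x g = 0

/-- There is a field `k` of characteristic two, the absolute Galois group of which has cohomological
dimension at most one but not zero, with a smooth complete intersection of two quadrics in `ℙ⁵` over `k`
without `k`-rational points. -/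
theorem result : ∃ (k : Type) (_ : Field k), CharP k 2 ∧ GalCdLe k (SeparableClosure k) 1 ∧
    ¬ GalCdLe k (SeparableClosure k) 0 ∧
    ∃ f g : MvPolynomial (Fin 6) k, IsSmoothIntersection f g ∧ ¬ HasPoint f g := by
  obtain ⟨k, hk, h1, h2, h3, f, g, h4, h5, h6, h7⟩ := Pool.Agent.X99.TQ.main
  refine ⟨k, hk, h1, fun M _ _ hM ht q hq => h2 M hM ht q hq, fun h => h3 ?_, f, g, ⟨h4, h5, h6⟩, ?_⟩
  · intro M _ _ hM ht q
    exact h M hM ht q (Nat.zero_le q)
  · rintro ⟨x, hx, hf, -⟩
    exact hx (h7 x hf)

end Pool.Agent.Results.MP_0f87c6_ag.CharacteristicTwo
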